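import Mathlib

/-!
# Measures on complete Boolean algebras with a continuous outer measure

Let `B` be a complete Boolean algebra with a continuous outer measure `m` such that every countably
generated complete subalgebra of `B` admits a measure. Then `B` admits a measure.

Proof. For `ε > 0` let `C ε` be the set of all `b` with `ε ≤ m b`. If a complete subalgebra `L` has a
measure `μ` then `μ` is bounded below on `L ∩ C ε`. So `C ε` has a positive intersection number in
`L`, and since intersection numbers are computed on finite sequences, `C ε` has a positive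
intersection number in `B`. Hence (Kelley) there is a finitely additive `λ` on `B` which is bounded
below on each `C ε`. Let `ν a` be the infimum of `sup λ (u n)` over all increasing sequences `u`
with supremum `a`. Then `ν` is countably additive, and it is strictly positive because `m` is
continuous.
-/

set_option autoImplicit false

open Filter Topology

namespace Pool.Agent.Results.MP_2d6919_lc.MeasureFromSubalgebras

universe u

/-- A measure on a Boolean algebra `A`: a map `μ : A → [0, ∞)` which is strictly positive and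
countably additive: `μ s = ∑ μ (a n)` whenever the `a n` are pairwise disjoint and have the
supremum `s` in `A`. -/
def IsMeasure {A : Type u} [BooleanAlgebra A] (μ : A → ℝ) : Prop :=
  (∀ a, 0 ≤ μ a) ∧ (∀ a, a ≠ ⊥ → 0 < μ a) ∧
    ∀ (a : ℕ → A) (s : A), Pairwise (fun i j => Disjoint (a i) (a j)) →
      IsLUB (Set.range a) s → HasSum (fun n => μ (a n)) (μ s)

/-- A continuous outer measure on a complete Boolean algebra `B`: a map `m : B → [0, ∞)` with
`m 0 = 0`, strictly positive, monotone, subadditive, and such that `m (a n) → 0` whenever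
`a 0 ≥ a 1 ≥ ⋯` has infimum `0`. -/
def IsContinuousOuterMeasure {B : Type u} [CompleteBooleanAlgebra B] (m : B → ℝ) : Prop :=
  m ⊥ = 0 ∧ (∀ a, a ≠ ⊥ → 0 < m a) ∧ (∀ a b, a ≤ b → m a ≤ m b) ∧
    (∀ a b, m (a ⊔ b) ≤ m a + m b) ∧
    ∀ a : ℕ → B, Antitone a → (⨅ n, a n) = ⊥ → Tendsto (fun n => m (a n)) atTop (𝓝 0)

/-- A complete subalgebra of `B`: a subalgebra closed under all suprema and infima taken in `B`. -/
def IsCompleteSubalgebra {B : Type u} [CompleteBooleanAlgebra B] (L : BooleanSubalgebra B) :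
    Prop :=
  ∀ S : Set B, S ⊆ (L : Set B) → sSup S ∈ L ∧ sInf S ∈ L

/-- `L` is a countably generated complete subalgebra of `B`: it is the smallest complete subalgebra
containing some countable set. -/
def IsCountablyGenerated {B : Type u} [CompleteBooleanAlgebra B] (L : BooleanSubalgebra B) :
    Prop :=
  IsCompleteSubalgebra L ∧ ∃ C : Set B, C.Countable ∧ C ⊆ (L : Set B) ∧
    ∀ L' : BooleanSubalgebra B, IsCompleteSubalgebra L' → C ⊆ (L' : Set B) → L ≤ L'

/-- The countable chain condition: every family of pairwise disjoint nonzero elements is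
countable. -/
def CCC (B : Type u) [CompleteBooleanAlgebra B] : Prop :=
  ∀ S : Set B, (∀ a ∈ S, a ≠ ⊥) → S.Pairwise Disjoint → S.Countable

/-! ### ultrafilters -/

/-- An ultrafilter on a Boolean algebra, as a predicate. -/
structure Pt (B : Type u) [BooleanAlgebra B] where
  /-- the predicate -/
  x : B → Prop
  inf' : ∀ a b, x (a ⊓ b) ↔ x a ∧ x b
  compl' : ∀ a, x aᶜ ↔ ¬ x a

namespace Pt

variable {B : Type u} [BooleanAlgebra B] (p : Pt B)

theorem bot : ¬ p.x ⊥ := by
  intro h
  have h1 : p.x (⊥ ⊓ ⊥ᶜ) := by rwa [bot_inf_eq]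
  rw [p.inf', p.compl'] at h1
  exact h1.2 h1.1

theorem top : p.x ⊤ := by
  have h := p.compl' ⊥
  rw [compl_bot] at h
  exact h.2 p.bot

theorem sup (a b : B) : p.x (a ⊔ b) ↔ p.x a ∨ p.x b := by
  have h : a ⊔ b = (aᶜ ⊓ bᶜ)ᶜ := by rw [compl_inf, compl_compl, compl_compl]
  rw [h, p.compl', p.inf', p.compl', p.compl']
  tauto

theorem finset_inf {ι : Type*} (J : Finset ι) (c : ι → B) :
    p.x (J.inf c) ↔ ∀ j ∈ J, p.x (c j) := by
  classical
  induction J using Finset.induction_on with
  | empty => simp [p.top]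
  | insert j J hj ih => rw [Finset.inf_insert, p.inf', ih]; simp

end Pt

theorem exists_pt {B : Type u} [BooleanAlgebra B] (b : B) (hb : b ≠ ⊥) : ∃ p : Pt B, p.x b := by
  obtain ⟨J, hJ, -, hd⟩ := DistribLattice.prime_ideal_of_disjoint_filter_ideal
    (F := Order.PFilter.principal b) (I := Order.Ideal.principal (⊥ : B)) (by
      rw [Set.disjoint_left]
      intro y hy hy'
      have h1 : b ≤ y := hy
      have h2 : y ≤ ⊥ := hy'
      exact hb (le_bot_iff.1 (h1.trans h2)))
  have hcompl : ∀ a : B, aᶜ ∉ J ↔ ¬ a ∉ J := by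
    intro a
    constructor
    · intro h h'
      rcases hJ.mem_or_compl_mem (x := a) with h1 | h1
      · exact h' h1
      · exact h h1
    · intro h h'
      have h1 : a ∈ J := by by_contra h2; exact h h2
      have h2 : (⊤ : B) ∈ J := by
        rw [← sup_compl_eq_top (x := a)]
        exact J.sup_mem h1 h'
      exact hJ.toIsProper.top_notMem h2
  refine ⟨⟨fun a => a ∉ J, ?_, hcompl⟩, ?_⟩
  · intro a c
    constructor
    · intro h
      exact ⟨fun h' => h (J.lower inf_le_left h'), fun h' => h (J.lower inf_le_right h')⟩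
    · rintro ⟨h1, h2⟩ h3
      rcases hJ.mem_or_mem h3 with h | h
      · exact h1 h
      · exact h2 h
  · intro h
    exact Set.disjoint_left.1 hd (Order.PFilter.mem_principal.2 le_rfl) h

/-! ### finitely additive functions -/

/-- nonnegative finitely additive functions -/
structure FinAdd {A : Type u} [BooleanAlgebra A] (μ : A → ℝ) : Prop where
  nonneg : ∀ a, 0 ≤ μ a
  add : ∀ a b, Disjoint a b → μ (a ⊔ b) = μ a + μ b

namespace FinAdd

variable {A : Type u} [BooleanAlgebra A] {μ : A → ℝ} (h : FinAdd μ)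

include h

theorem bot : μ ⊥ = 0 := by
  have := h.add ⊥ ⊥ disjoint_bot_left
  rw [sup_idem] at this
  linarith

theorem mono {a b : A} (hab : a ≤ b) : μ a ≤ μ b := by
  have h1 := h.add a (b \ a) disjoint_sdiff_self_right
  rw [sup_sdiff_cancel_right hab] at h1
  linarith [h.nonneg (b \ a)]

theorem split (b c : A) : μ b = μ (b ⊓ c) + μ (b ⊓ cᶜ) := by
  rw [← h.add, ← inf_sup_left, sup_compl_eq_top, inf_top_eq]
  exact (disjoint_compl_right (a := c)).mono inf_le_right inf_le_right

/-- The integral of a nonnegative combination is at most the total mass times the maximum. -/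
theorem sum_le {ι : Type*} [DecidableEq ι] (c : ι → A) (t : ι → ℝ) (S : Finset ι) :
    ∀ (b : A) (M : ℝ), (∀ J ⊆ S, J.inf c ⊓ b ≠ ⊥ → ∑ j ∈ J, t j ≤ M) →
      ∑ i ∈ S, t i * μ (c i ⊓ b) ≤ M * μ b := by
  induction S using Finset.induction_on with
  | empty =>
    intro b M hM
    rw [Finset.sum_empty]
    by_cases hb : b = ⊥
    · rw [hb, h.bot, mul_zero]
    · have := hM ∅ (Finset.Subset.refl _) (by simpa using hb)
      rw [Finset.sum_empty] at this
      exact mul_nonneg this (h.nonneg b)
  | insert j S hj ih =>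
    intro b M hM
    rw [Finset.sum_insert hj]
    have h1 := ih (b ⊓ c j) (M - t j) (by
      intro J hJ hne
      have h2 := hM (insert j J) (Finset.insert_subset_insert j hJ) (by
        rw [Finset.inf_insert]
        intro h3
        apply hne
        rw [← h3]
        ac_rfl)
      rw [Finset.sum_insert (fun h' => hj (hJ h'))] at h2
      linarith)
    have h2 := ih (b ⊓ (c j)ᶜ) M (by
      intro J hJ hne
      refine hM J (hJ.trans (Finset.subset_insert j S)) ?_
      intro h3
      apply hne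
      rw [← inf_assoc, h3, bot_inf_eq])
    have h3 : ∀ i, μ (c i ⊓ b) = μ (c i ⊓ (b ⊓ c j)) + μ (c i ⊓ (b ⊓ (c j)ᶜ)) := by
      intro i
      rw [h.split (c i ⊓ b) (c j), inf_assoc, inf_assoc]
    have h4 : ∑ i ∈ S, t i * μ (c i ⊓ b) =
        ∑ i ∈ S, t i * μ (c i ⊓ (b ⊓ c j)) + ∑ i ∈ S, t i * μ (c i ⊓ (b ⊓ (c j)ᶜ)) := by
      rw [← Finset.sum_add_distrib]
      refine Finset.sum_congr rfl fun i _ => ?_
      rw [h3 i]; ring
    have h5 := h.split b (c j)
    have h6 : μ (c j ⊓ b) = μ (b ⊓ c j) := by rw [inf_comm]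
    rw [h4, h6]
    rw [h5]
    nlinarith

end FinAdd

/-! ### Kelley's theorem -/

section Kelley

variable {B : Type u} [BooleanAlgebra B]

open Classical in
/-- the indicator function -/
noncomputable def ind (p : Pt B) (b : B) : ℝ := if p.x b then 1 else 0

theorem ind_nonneg (p : Pt B) (b : B) : 0 ≤ ind p b := by unfold ind; split_ifs <;> norm_num

theorem ind_le_one (p : Pt B) (b : B) : ind p b ≤ 1 := by unfold ind; split_ifs <;> norm_num

theorem ind_top (p : Pt B) : ind p ⊤ = 1 := if_pos p.top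

theorem ind_sup (p : Pt B) {a b : B} (hab : Disjoint a b) : ind p (a ⊔ b) = ind p a + ind p b := by
  have h : ¬ (p.x a ∧ p.x b) := by
    rw [← p.inf', hab.eq_bot]
    exact p.bot
  unfold ind
  by_cases h1 : p.x a <;> by_cases h2 : p.x b <;> simp [p.sup, h1, h2]
  exact h ⟨h1, h2⟩

/-- evaluation of a formal combination at a point -/
noncomputable def ev (p : Pt B) : (B →₀ ℝ) →ₗ[ℝ] ℝ := Finsupp.linearCombination ℝ (ind p)

/-- the sum of the coefficients -/
noncomputable def mass : (B →₀ ℝ) →ₗ[ℝ] ℝ := Finsupp.linearCombination ℝ (fun _ => (1 : ℝ))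

theorem ev_single (p : Pt B) (b : B) (r : ℝ) : ev p (Finsupp.single b r) = r * ind p b := by
  rw [ev, Finsupp.linearCombination_single, smul_eq_mul]

omit [BooleanAlgebra B] in
theorem mass_single (b : B) (r : ℝ) : mass (Finsupp.single b r) = r := by
  rw [mass, Finsupp.linearCombination_single, smul_eq_mul, mul_one]

theorem ev_lower (p : Pt B) (y : B →₀ ℝ) : -(y.sum fun _ s => |s|) ≤ ev p y := by
  rw [ev, Finsupp.linearCombination_apply, Finsupp.sum, Finsupp.sum, ← Finset.sum_neg_distrib]
  refine Finset.sum_le_sum fun b _ => ?_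
  rw [smul_eq_mul]
  have h0 := ind_nonneg p b
  have h1 := ind_le_one p b
  have h2 := neg_abs_le (y b)
  have h3 := abs_nonneg (y b)
  nlinarith

/-- The cone of all formal combinations which dominate some nonnegative combination of the
functions `1_c - δ`, `c ∈ C`. -/
def cone (C : Set B) (δ : ℝ) : PointedCone ℝ (B →₀ ℝ) where
  carrier := {f | ∃ t : B →₀ ℝ, (∀ b, 0 ≤ t b) ∧ (∀ b, t b ≠ 0 → b ∈ C) ∧
    ∀ p : Pt B, ev p t - δ * mass t ≤ ev p f}
  zero_mem' := ⟨0, fun _ => le_rfl, fun b hb => absurd rfl hb, fun p => by simp⟩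
  add_mem' := by
    rintro f g ⟨t, h1, h2, h3⟩ ⟨t', h1', h2', h3'⟩
    refine ⟨t + t', fun b => add_nonneg (h1 b) (h1' b), fun b hb => ?_, fun p => ?_⟩
    · by_contra hc
      apply hb
      have e1 : t b = 0 := by by_contra h; exact hc (h2 b h)
      have e2 : t' b = 0 := by by_contra h; exact hc (h2' b h)
      rw [Finsupp.add_apply, e1, e2, add_zero]
    · have := h3 p
      have := h3' p
      simp only [map_add]
      linarith
  smul_mem' := by
    rintro ⟨c, hc⟩ f ⟨t, h1, h2, h3⟩
    refine ⟨c • t, fun b => mul_nonneg hc (h1 b), fun b hb => h2 b ?_, fun p => ?_⟩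
    · intro h
      apply hb
      rw [Finsupp.smul_apply, h, smul_zero]
    · have h4 := mul_le_mul_of_nonneg_left (h3 p) hc
      have h5 : ev p ((⟨c, hc⟩ : {c : ℝ // 0 ≤ c}) • f) = c * ev p f := by
        change ev p (c • f) = _
        rw [map_smul, smul_eq_mul]
      rw [h5, map_smul, map_smul, smul_eq_mul, smul_eq_mul]
      linarith

/-- Kelley's theorem: if every nonnegative combination of elements of `C` has at some point at
least the value `δ` times the sum of the coefficients, then there is a normalised finitely additive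
function which is at least `δ` on `C`. -/
theorem kelley (C : Set B) (δ : ℝ)
    (h : ∀ t : B →₀ ℝ, (∀ b, 0 ≤ t b) → (∀ b, t b ≠ 0 → b ∈ C) →
      ∃ p : Pt B, δ * mass t ≤ ev p t) :
    ∃ μ : B → ℝ, FinAdd μ ∧ μ ⊤ = 1 ∧ ∀ c ∈ C, δ ≤ μ c := by
  have hne : (Finsupp.single (⊤ : B) (1 : ℝ)) ≠ 0 := by simp
  obtain ⟨g, hg1, hg2⟩ := riesz_extension (cone C δ)
    (LinearPMap.mkSpanSingleton (Finsupp.single (⊤ : B) (1 : ℝ)) (1 : ℝ) hne) (by
      rintro ⟨x, hx⟩ ⟨t, h1, h2, h3⟩
      obtain ⟨c, rfl⟩ := Submodule.mem_span_singleton.1 hx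
      obtain ⟨p, hp⟩ := h t h1 h2
      have h4 := h3 p
      have h5 : ev p (c • Finsupp.single (⊤ : B) (1 : ℝ)) = c := by
        rw [map_smul, ev_single, ind_top, smul_eq_mul, mul_one, mul_one]
      have h6 : (LinearPMap.mkSpanSingleton (Finsupp.single (⊤ : B) (1 : ℝ)) (1 : ℝ) hne)
          ⟨c • Finsupp.single (⊤ : B) (1 : ℝ), hx⟩ = c • (1 : ℝ) :=
        LinearPMap.mkSpanSingleton'_apply _ _ _ _ _
      rw [h6, smul_eq_mul, mul_one]
      change ev p t - δ * mass t ≤ ev p (c • Finsupp.single (⊤ : B) (1 : ℝ)) at h4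
      rw [h5] at h4
      linarith) (by
      intro y
      refine ⟨⟨(y.sum fun _ s => |s|) • Finsupp.single (⊤ : B) (1 : ℝ),
        Submodule.smul_mem _ _ (Submodule.mem_span_singleton_self _)⟩, 0, fun _ => le_rfl,
        fun b hb => absurd rfl hb, fun p => ?_⟩
      have h1 := ev_lower p y
      rw [map_add, map_smul, ev_single, ind_top, map_zero, map_zero, smul_eq_mul]
      linarith)
  have hmem : ∀ f : B →₀ ℝ, (∀ p : Pt B, 0 ≤ ev p f) → 0 ≤ g f := fun f hf =>
    hg2 f ⟨0, fun _ => le_rfl, fun b hb => absurd rfl hb, fun p => by simpa using hf p⟩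
  have htop : g (Finsupp.single (⊤ : B) (1 : ℝ)) = 1 := by
    have := hg1 ⟨Finsupp.single (⊤ : B) (1 : ℝ), Submodule.mem_span_singleton_self _⟩
    rw [this]
    exact LinearPMap.mkSpanSingleton'_apply_self _ _ _ _
  refine ⟨fun b => g (Finsupp.single b 1), ⟨fun b => hmem _ fun p => ?_, fun a b hab => ?_⟩,
    htop, fun c hc => ?_⟩
  · rw [ev_single, one_mul]; exact ind_nonneg p b
  · have h1 : 0 ≤ g (Finsupp.single (a ⊔ b) 1 - Finsupp.single a 1 - Finsupp.single b 1) :=
      hmem _ fun p => by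
        rw [map_sub, map_sub, ev_single, ev_single, ev_single, ind_sup p hab]; linarith
    have h2 : 0 ≤ g (Finsupp.single a 1 + Finsupp.single b 1 - Finsupp.single (a ⊔ b) 1) :=
      hmem _ fun p => by
        rw [map_sub, map_add, ev_single, ev_single, ev_single, ind_sup p hab]; linarith
    simp only [map_sub, map_add] at h1 h2
    change g (Finsupp.single (a ⊔ b) 1) = g (Finsupp.single a 1) + g (Finsupp.single b 1)
    linarith
  · have h1 : 0 ≤ g (Finsupp.single c 1 - δ • Finsupp.single (⊤ : B) (1 : ℝ)) := by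
      refine hg2 _ ⟨Finsupp.single c 1, fun b => ?_, fun b hb => ?_, fun p => ?_⟩
      · classical
        rw [Finsupp.single_apply]; split_ifs <;> norm_num
      · classical
        rw [Finsupp.single_apply] at hb
        by_contra h'
        apply hb
        rw [if_neg]
        rintro rfl
        exact h' hc
      · rw [mass_single, map_sub, map_smul, ev_single, ev_single, ind_top, smul_eq_mul]
        linarith
    rw [map_sub, map_smul, htop, smul_eq_mul] at h1
    linarith

end Kelley

/-! ### measures -/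

section Measure

variable {A : Type u} [BooleanAlgebra A] {μ : A → ℝ}

theorem IsMeasure.zero (h : IsMeasure μ) : μ ⊥ = 0 := by
  have h1 := h.2.2 (fun _ => ⊥) ⊥ (fun i j _ => disjoint_bot_left) (by
    rw [Set.range_const]; exact isLUB_singleton)
  have h2 := h1.summable
  have h3 : Tendsto (fun _ : ℕ => μ (⊥ : A)) atTop (𝓝 0) := h2.tendsto_atTop_zero
  exact tendsto_nhds_unique tendsto_const_nhds h3

theorem IsMeasure.finAdd (h : IsMeasure μ) : FinAdd μ := by
  refine ⟨h.1, fun a b hab => ?_⟩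
  have h1 := h.2.2 (fun n => if n = 0 then a else if n = 1 then b else ⊥) (a ⊔ b) (by
    intro i j hij
    rcases i with _ | _ | i <;> rcases j with _ | _ | j <;>
      simp [hab, hab.symm] at hij ⊢) (by
    constructor
    · rintro _ ⟨n, rfl⟩
      rcases n with _ | _ | n <;> simp
    · intro c hc
      have h0 := hc ⟨0, rfl⟩
      have h1 := hc ⟨1, rfl⟩
      simp at h0 h1
      exact sup_le h0 h1)
  have h2 : HasSum (fun n => μ (if n = 0 then a else if n = 1 then b else ⊥))
      (∑ n ∈ Finset.range 2, μ (if n = 0 then a else if n = 1 then b else ⊥)) := by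
    apply hasSum_sum_of_ne_finset_zero
    intro n hn
    rw [Finset.mem_range, not_lt] at hn
    rw [if_neg (by omega), if_neg (by omega), h.zero]
  have h3 := h1.unique h2
  rw [h3, Finset.sum_range_succ, Finset.sum_range_one]
  simp

/-- countable subadditivity -/
theorem IsMeasure.le_tsum (h : IsMeasure μ) (a : ℕ → A) (s : A) (hs : IsLUB (Set.range a) s)
    (r : ℕ → ℝ) (hr : Summable r) (har : ∀ n, μ (a n) ≤ r n) : μ s ≤ ∑' n, r n := by
  have h1 := h.2.2 (disjointed a) s (fun i j hij => disjoint_disjointed a hij) (by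
    have e1 : ∀ f : ℕ → A, upperBounds (Set.range f) = upperBounds (Set.range (partialSups f)) := by
      intro f
      ext c
      constructor
      · rintro hc _ ⟨n, rfl⟩
        exact partialSups_le f n c (fun i _ => hc ⟨i, rfl⟩)
      · rintro hc _ ⟨n, rfl⟩
        exact (le_partialSups f n).trans (hc ⟨n, rfl⟩)
    rw [IsLUB, e1, partialSups_disjointed, ← e1]
    exact hs)
  rw [← h1.tsum_eq]
  refine h1.summable.tsum_le_tsum (fun n => ?_) hr
  exact (h.finAdd.mono (disjointed_le a n)).trans (har n)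

end Measure

section Main

variable {B : Type u} [CompleteBooleanAlgebra B] {m : B → ℝ}

theorem IsContinuousOuterMeasure.nonneg (hm : IsContinuousOuterMeasure m) (a : B) : 0 ≤ m a := by
  rw [← hm.1]
  exact hm.2.2.1 _ _ bot_le

/-- A measure on a complete subalgebra is bounded below on the set of all elements with outer
measure at least `ε`. -/
theorem bounded_below (hm : IsContinuousOuterMeasure m) (L : BooleanSubalgebra B)
    (hL : IsCompleteSubalgebra L) (μ : L → ℝ) (hμ : IsMeasure μ) (ε : ℝ) (hε : 0 < ε) :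
    ∃ δ : ℝ, 0 < δ ∧ ∀ a : L, ε ≤ m a → δ ≤ μ a := by
  by_contra hcon
  push Not at hcon
  choose a ha1 ha2 using fun n : ℕ => hcon ((1 / 2 : ℝ) ^ n) (by positivity)
  -- the tails
  let b : ℕ → B := fun n => ⨆ k, (a (n + k) : B)
  have hbL : ∀ n, b n ∈ L := fun n =>
    (hL (Set.range fun k => (a (n + k) : B)) (by rintro _ ⟨k, rfl⟩; exact (a (n + k)).2)).1
  have hcL : (⨅ n, b n) ∈ L :=
    (hL (Set.range b) (by rintro _ ⟨k, rfl⟩; exact hbL k)).2
  have hanti : Antitone b := by
    refine antitone_nat_of_succ_le fun n => ?_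
    refine iSup_le fun k => ?_
    have := le_iSup (fun k => (a (n + k) : B)) (1 + k)
    rwa [← add_assoc] at this
  have h1 : ∀ n, μ ⟨⨅ n, b n, hcL⟩ ≤ 2 * (1 / 2 : ℝ) ^ n := by
    intro n
    have h2 : μ ⟨⨅ n, b n, hcL⟩ ≤ μ ⟨b n, hbL n⟩ := hμ.finAdd.mono (iInf_le b n)
    refine h2.trans ?_
    have h3 := hμ.le_tsum (fun k => a (n + k)) ⟨b n, hbL n⟩ (by
      constructor
      · rintro _ ⟨k, rfl⟩
        exact le_iSup (fun k => (a (n + k) : B)) k
      · intro c hc
        refine iSup_le fun k => ?_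
        exact hc ⟨k, rfl⟩) (fun k => (1 / 2 : ℝ) ^ n * (1 / 2 : ℝ) ^ k)
      (summable_geometric_two.mul_left _) (fun k => by
        rw [← pow_add]; exact (ha2 (n + k)).le)
    rw [tsum_mul_left, tsum_geometric_two] at h3
    linarith
  have h2 : μ ⟨⨅ n, b n, hcL⟩ ≤ 0 := by
    have h3 : Tendsto (fun n : ℕ => 2 * (1 / 2 : ℝ) ^ n) atTop (𝓝 (2 * 0)) :=
      (tendsto_pow_atTop_nhds_zero_of_lt_one (by norm_num) (by norm_num)).const_mul _
    rw [mul_zero] at h3
    exact ge_of_tendsto' h3 h1
  have h3 : (⟨⨅ n, b n, hcL⟩ : L) = ⊥ := by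
    by_contra h
    exact absurd (hμ.2.1 _ h) (not_lt.2 h2)
  have h4 : (⨅ n, b n) = ⊥ := congrArg Subtype.val h3
  have h5 := hm.2.2.2.2 b hanti h4
  obtain ⟨n, hn⟩ := (h5.eventually (gt_mem_nhds hε)).exists
  have h6 : m (a (n + 0)) ≤ m (b n) := hm.2.2.1 _ _ (le_iSup (fun k => (a (n + k) : B)) 0)
  exact absurd ((ha1 (n + 0)).trans h6) (not_le.2 hn)

/-- the smallest complete subalgebra containing `C` -/
def gen (C : Set B) : BooleanSubalgebra B :=
  sInf {L' | IsCompleteSubalgebra L' ∧ C ⊆ (L' : Set B)}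

theorem mem_gen (C : Set B) (b : B) : b ∈ gen C ↔
    ∀ L' : BooleanSubalgebra B, IsCompleteSubalgebra L' ∧ C ⊆ (L' : Set B) → b ∈ L' :=
  BooleanSubalgebra.mem_sInf

theorem gen_countablyGenerated (C : Set B) (hC : C.Countable) : IsCountablyGenerated (gen C) := by
  refine ⟨fun S hS => ?_, C, hC, fun b hb => (mem_gen C b).2 fun L' hL' => hL'.2 hb,
    fun L' h1 h2 b hb => (mem_gen C b).1 hb L' ⟨h1, h2⟩⟩
  have h : ∀ L' : BooleanSubalgebra B, IsCompleteSubalgebra L' ∧ C ⊆ (L' : Set B) →
      S ⊆ (L' : Set B) := fun L' hL' b hb => (mem_gen C b).1 (hS hb) L' hL'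
  exact ⟨(mem_gen C _).2 fun L' hL' => (hL'.1 S (h L' hL')).1,
    (mem_gen C _).2 fun L' hL' => (hL'.1 S (h L' hL')).2⟩

/-- The set of all elements of outer measure at least `ε` has a positive intersection number. -/
theorem inter_pos [Nontrivial B] (hm : IsContinuousOuterMeasure m)
    (hsub : ∀ L : BooleanSubalgebra B, IsCountablyGenerated L → ∃ μ : L → ℝ, IsMeasure μ)
    (ε : ℝ) (hε : 0 < ε) :
    ∃ δ : ℝ, 0 < δ ∧ ∀ t : B →₀ ℝ, (∀ b, 0 ≤ t b) → (∀ b, t b ≠ 0 → ε ≤ m b) →
      ∃ p : Pt B, δ * mass t ≤ ev p t := by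
  classical
  by_contra hcon
  push Not at hcon
  choose t ht0 htC ht using fun k : ℕ => hcon (1 / ((k : ℝ) + 1)) (by positivity)
  let C : Set B := ⋃ k, ((t k).support : Set B)
  have hC : C.Countable := Set.countable_iUnion fun k => (t k).support.countable_toSet
  obtain ⟨μ, hμ⟩ := hsub (gen C) (gen_countablyGenerated C hC)
  obtain ⟨δ, hδ, hδ2⟩ := bounded_below hm (gen C) (gen_countablyGenerated C hC).1 μ hμ ε hε
  have hmem : ∀ k, ∀ b ∈ (t k).support, b ∈ gen C := fun k b hb =>
    (mem_gen C b).2 fun L' hL' => hL'.2 (Set.mem_iUnion.2 ⟨k, hb⟩)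
  let c : B → gen C := fun b => if hb : b ∈ gen C then ⟨b, hb⟩ else ⊥
  have hc : ∀ k, ∀ b ∈ (t k).support, (c b : B) = b := by
    intro k b hb
    simp only [c, dif_pos (hmem k b hb)]
  have hev : ∀ k (p : Pt B), ev p (t k) = ∑ b ∈ (t k).support, t k b * ind p b := by
    intro k p
    rw [ev, Finsupp.linearCombination_apply, Finsupp.sum]
    rfl
  have hmass : ∀ k, mass (t k) = ∑ b ∈ (t k).support, t k b := by
    intro k
    rw [mass, Finsupp.linearCombination_apply, Finsupp.sum]
    simp
  have hpos : ∀ k, 0 < mass (t k) := by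
    intro k
    obtain ⟨p, -⟩ := exists_pt (⊤ : B) top_ne_bot
    have h1 := ht k p
    have h2 : 0 ≤ ev p (t k) := by
      rw [hev]
      exact Finset.sum_nonneg fun b _ => mul_nonneg (ht0 k b) (ind_nonneg p b)
    have h3 : 0 < 1 / ((k : ℝ) + 1) * mass (t k) := h2.trans_lt h1
    have h4 : (0 : ℝ) < 1 / ((k : ℝ) + 1) := by positivity
    exact (mul_pos_iff_of_pos_left h4).1 h3
  have hkey : ∀ k : ℕ, δ ≤ 1 / ((k : ℝ) + 1) * μ ⊤ := by
    intro k
    have h1 := hμ.finAdd.sum_le c (t k) (t k).support ⊤ (1 / ((k : ℝ) + 1) * mass (t k)) (by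
      intro J hJ hne
      rw [inf_top_eq] at hne
      have hne' : ((J.inf c : gen C) : B) ≠ ⊥ := fun h => hne (Subtype.ext h)
      obtain ⟨p, hp⟩ := exists_pt _ hne'
      have hpj : ∀ j ∈ J, p.x j := by
        intro j hj
        have h2 : ((J.inf c : gen C) : B) ≤ j := by
          have h3 : J.inf c ≤ c j := Finset.inf_le hj
          have h4 : ((J.inf c : gen C) : B) ≤ (c j : B) := h3
          rwa [hc k j (hJ hj)] at h4
        have h3 : ((J.inf c : gen C) : B) ⊓ j = ((J.inf c : gen C) : B) := inf_eq_left.2 h2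
        rw [← h3, p.inf'] at hp
        exact hp.2
      refine le_trans ?_ (ht k p).le
      rw [hev]
      calc ∑ j ∈ J, t k j = ∑ j ∈ J, t k j * ind p j := by
            refine Finset.sum_congr rfl fun j hj => ?_
            rw [ind, if_pos (hpj j hj), mul_one]
        _ ≤ ∑ b ∈ (t k).support, t k b * ind p b :=
            Finset.sum_le_sum_of_subset_of_nonneg hJ fun b _ _ =>
              mul_nonneg (ht0 k b) (ind_nonneg p b))
    have h2 : δ * mass (t k) ≤ ∑ i ∈ (t k).support, t k i * μ (c i ⊓ ⊤) := by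
      rw [hmass, Finset.mul_sum]
      refine Finset.sum_le_sum fun b hb => ?_
      rw [inf_top_eq, mul_comm]
      refine mul_le_mul_of_nonneg_left (hδ2 (c b) ?_) (ht0 k b)
      rw [hc k b hb]
      exact htC k b (Finsupp.mem_support_iff.1 hb)
    have h3 : δ * mass (t k) ≤ (1 / ((k : ℝ) + 1) * μ ⊤) * mass (t k) := by
      refine (h2.trans h1).trans (le_of_eq ?_)
      ring
    exact le_of_mul_le_mul_right h3 (hpos k)
  have h1 : Tendsto (fun k : ℕ => 1 / ((k : ℝ) + 1) * μ ⊤) atTop (𝓝 (0 * μ ⊤)) :=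
    tendsto_one_div_add_atTop_nhds_zero_nat.mul_const _
  rw [zero_mul] at h1
  exact absurd (ge_of_tendsto' h1 hkey) (not_le.2 hδ)

/-- There is a finitely additive function on `B` which is bounded below on each set of all elements
of outer measure at least `ε`. -/
theorem exists_finAdd [Nontrivial B] (hm : IsContinuousOuterMeasure m)
    (hsub : ∀ L : BooleanSubalgebra B, IsCountablyGenerated L → ∃ μ : L → ℝ, IsMeasure μ) :
    ∃ l : B → ℝ, FinAdd l ∧ ∀ ε : ℝ, 0 < ε → ∃ δ : ℝ, 0 < δ ∧ ∀ b, ε ≤ m b → δ ≤ l b := by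
  choose δ hδ h using fun k : ℕ => inter_pos hm hsub (1 / ((k : ℝ) + 1)) (by positivity)
  choose l hl1 hl2 hl3 using fun k : ℕ =>
    kelley {b : B | 1 / ((k : ℝ) + 1) ≤ m b} (δ k) (fun t h1 h2 => h k t h1 h2)
  have hle : ∀ k b, l k b ≤ 1 := fun k b => by
    rw [← hl2 k]
    exact (hl1 k).mono le_top
  have hsum : ∀ b, Summable fun k => (1 / 2 : ℝ) ^ k * l k b := fun b =>
    Summable.of_nonneg_of_le (fun k => mul_nonneg (by positivity) ((hl1 k).nonneg b))
      (fun k => mul_le_of_le_one_right (by positivity) (hle k b)) summable_geometric_two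
  refine ⟨fun b => ∑' k, (1 / 2 : ℝ) ^ k * l k b, ⟨fun b => ?_, fun a b hab => ?_⟩, ?_⟩
  · exact tsum_nonneg fun k => mul_nonneg (by positivity) ((hl1 k).nonneg b)
  · rw [← (hsum a).tsum_add (hsum b)]
    refine tsum_congr fun k => ?_
    rw [(hl1 k).add a b hab]
    ring
  · intro ε hε
    obtain ⟨k, hk⟩ := exists_nat_one_div_lt hε
    refine ⟨(1 / 2 : ℝ) ^ k * δ k, mul_pos (by positivity) (hδ k), fun b hb => ?_⟩
    have h1 : δ k ≤ l k b := hl3 k b (hk.le.trans hb)
    have h2 : (1 / 2 : ℝ) ^ k * δ k ≤ (1 / 2 : ℝ) ^ k * l k b :=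
      mul_le_mul_of_nonneg_left h1 (by positivity)
    exact h2.trans ((hsum b).le_tsum k fun j _ => mul_nonneg (by positivity) ((hl1 j).nonneg b))

end Main

/-! ### the countably additive part -/

section CountablyAdditive

variable {B : Type u} [CompleteBooleanAlgebra B]

/-- bounds for `l` along increasing sequences with supremum `a` -/
def bounds (l : B → ℝ) (a : B) : Set ℝ :=
  {r | ∃ u : ℕ → B, Monotone u ∧ (⨆ n, u n) = a ∧ ∀ n, l (u n) ≤ r}

/-- the countably additive part of `l` -/
noncomputable def capart (l : B → ℝ) (a : B) : ℝ := sInf (bounds l a)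

variable {l : B → ℝ} (hl : FinAdd l)

include hl

theorem FinAdd.sup_le (a b : B) : l (a ⊔ b) ≤ l a + l b := by
  rw [← sup_sdiff_self_right, hl.add _ _ disjoint_sdiff_self_right]
  linarith [hl.mono (sdiff_le (a := b) (b := a))]

theorem FinAdd.finset_sup_le {ι : Type*} (S : Finset ι) (f : ι → B) :
    l (S.sup f) ≤ ∑ i ∈ S, l (f i) := by
  classical
  induction S using Finset.induction_on with
  | empty => simp [hl.bot]
  | insert j S hj ih =>
    rw [Finset.sup_insert, Finset.sum_insert hj]
    linarith [hl.sup_le (f j) (S.sup f)]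

omit hl in
theorem bounds_nonempty (a : B) : l a ∈ bounds l a :=
  ⟨fun _ => a, monotone_const, ciSup_const, fun _ => le_rfl⟩

theorem bounds_nonneg (a : B) {r : ℝ} (hr : r ∈ bounds l a) : 0 ≤ r := by
  obtain ⟨u, -, -, h⟩ := hr
  exact (hl.nonneg _).trans (h 0)

theorem capart_le (a : B) {r : ℝ} (hr : r ∈ bounds l a) : capart l a ≤ r :=
  csInf_le ⟨0, fun _ h => bounds_nonneg hl a h⟩ hr

omit hl in
theorem le_capart (a : B) {x : ℝ} (h : ∀ r ∈ bounds l a, x ≤ r) : x ≤ capart l a :=
  le_csInf ⟨_, bounds_nonempty a⟩ h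

theorem capart_nonneg (a : B) : 0 ≤ capart l a :=
  le_capart a fun _ h => bounds_nonneg hl a h

theorem capart_superadd {a b : B} (hab : Disjoint a b) :
    capart l a + capart l b ≤ capart l (a ⊔ b) := by
  refine le_capart _ ?_
  rintro r ⟨u, hu1, hu2, hu3⟩
  have h1 : ∀ n k, l (u n ⊓ a) + l (u k ⊓ b) ≤ r := by
    intro n k
    have h2 : l (u n ⊓ a) + l (u k ⊓ b) = l ((u n ⊓ a) ⊔ (u k ⊓ b)) :=
      (hl.add _ _ (hab.mono inf_le_right inf_le_right)).symm
    rw [h2]
    refine le_trans (hl.mono ?_) (hu3 (max n k))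
    exact _root_.sup_le (inf_le_left.trans (hu1 (le_max_left n k)))
      (inf_le_left.trans (hu1 (le_max_right n k)))
  have h2 := ciSup_add_ciSup_le h1
  have hb1 : BddAbove (Set.range fun n => l (u n ⊓ a)) := by
    refine ⟨r, ?_⟩
    rintro _ ⟨n, rfl⟩
    exact (hl.mono inf_le_left).trans (hu3 n)
  have hb2 : BddAbove (Set.range fun n => l (u n ⊓ b)) := by
    refine ⟨r, ?_⟩
    rintro _ ⟨n, rfl⟩
    exact (hl.mono inf_le_left).trans (hu3 n)
  have h3 : capart l a ≤ ⨆ n, l (u n ⊓ a) := capart_le hl a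
    ⟨fun n => u n ⊓ a, fun i j hij => inf_le_inf_right a (hu1 hij), by
      rw [← iSup_inf_eq, hu2, inf_eq_right]; exact le_sup_left, fun n => le_ciSup hb1 n⟩
  have h4 : capart l b ≤ ⨆ n, l (u n ⊓ b) := capart_le hl b
    ⟨fun n => u n ⊓ b, fun i j hij => inf_le_inf_right b (hu1 hij), by
      rw [← iSup_inf_eq, hu2, inf_eq_right]; exact le_sup_right, fun n => le_ciSup hb2 n⟩
  linarith

theorem capart_mono {a b : B} (hab : a ≤ b) : capart l a ≤ capart l b := by
  have h := capart_superadd hl (disjoint_sdiff_self_right (x := a) (y := b))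
  rw [sup_sdiff_cancel_right hab] at h
  linarith [capart_nonneg hl (b \ a)]

theorem capart_sum_le (a : ℕ → B) (ha : Pairwise fun i j => Disjoint (a i) (a j)) (n : ℕ) :
    ∑ i ∈ Finset.range n, capart l (a i) ≤ capart l ((Finset.range n).sup a) := by
  induction n with
  | zero => simpa using capart_nonneg hl ⊥
  | succ n ih =>
    rw [Finset.sum_range_succ, Finset.range_add_one, Finset.sup_insert, sup_comm]
    refine le_trans ?_ (capart_superadd hl ?_)
    · linarith
    · rw [Finset.disjoint_sup_left]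
      intro i hi
      exact ha (Finset.mem_range.1 hi).ne

theorem capart_hasSum (a : ℕ → B) (s : B) (ha : Pairwise fun i j => Disjoint (a i) (a j))
    (hs : IsLUB (Set.range a) s) : HasSum (fun n => capart l (a n)) (capart l s) := by
  have hle : ∀ n, a n ≤ s := fun n => hs.1 ⟨n, rfl⟩
  have h1 : ∀ n, ∑ i ∈ Finset.range n, capart l (a i) ≤ capart l s := fun n =>
    (capart_sum_le hl a ha n).trans (capart_mono hl (Finset.sup_le fun i _ => hle i))
  have hsum : Summable fun n => capart l (a n) :=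
    summable_of_sum_range_le (fun n => capart_nonneg hl (a n)) h1
  have h2 : ∑' n, capart l (a n) ≤ capart l s :=
    hsum.tsum_le_of_sum_range_le h1
  have h3 : capart l s ≤ ∑' n, capart l (a n) := by
    refine le_of_forall_pos_le_add fun ε hε => ?_
    have hex : ∀ i : ℕ, ∃ r ∈ bounds l (a i), r < capart l (a i) + ε / 2 * (1 / 2 : ℝ) ^ i :=
      fun i => exists_lt_of_csInf_lt ⟨_, bounds_nonempty (a i)⟩
        (lt_add_of_pos_right _ (by positivity))
    choose r hr hr2 using hex
    choose u hu1 hu2 hu3 using hr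
    have hr0 : ∀ i, 0 ≤ r i := fun i => (hl.nonneg _).trans (hu3 i 0)
    have hg : Summable fun i : ℕ => ε / 2 * (1 / 2 : ℝ) ^ i := summable_geometric_two.mul_left _
    have hrs : Summable r := Summable.of_nonneg_of_le hr0 (fun i => (hr2 i).le) (hsum.add hg)
    have h4 : ∑' i, r i ≤ ∑' n, capart l (a n) + ε := by
      refine (hrs.tsum_le_tsum (fun i => (hr2 i).le) (hsum.add hg)).trans (le_of_eq ?_)
      rw [hsum.tsum_add hg, tsum_mul_left, tsum_geometric_two]
      ring
    refine le_trans (capart_le hl s ⟨fun n => (Finset.range (n + 1)).sup fun i => u i n, ?_, ?_,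
      fun n => ?_⟩) h4
    · intro n n' hn
      refine Finset.sup_le fun i hi => (hu1 i hn).trans ?_
      exact Finset.le_sup (f := fun i => u i n')
        (Finset.mem_range.2 ((Finset.mem_range.1 hi).trans_le (by omega)))
    · apply le_antisymm
      · refine iSup_le fun n => Finset.sup_le fun i _ => ?_
        refine le_trans ?_ (hle i)
        rw [← hu2 i]
        exact le_iSup (u i) n
      · refine hs.2 ?_
        rintro _ ⟨i, rfl⟩
        rw [← hu2 i]
        refine iSup_le fun n => ?_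
        refine le_trans ?_ (le_iSup _ (max i n))
        refine (hu1 i (le_max_right i n)).trans ?_
        exact Finset.le_sup (f := fun j => u j (max i n))
          (Finset.mem_range.2 (Nat.lt_succ_of_le (le_max_left i n)))
    · refine (hl.finset_sup_le _ _).trans ?_
      refine (Finset.sum_le_sum fun i _ => hu3 i n).trans ?_
      exact hrs.sum_le_tsum _ fun i _ => hr0 i
  rw [le_antisymm h3 h2]
  exact hsum.hasSum

theorem capart_pos {m : B → ℝ} (hm : IsContinuousOuterMeasure m)
    (h : ∀ ε : ℝ, 0 < ε → ∃ δ : ℝ, 0 < δ ∧ ∀ b, ε ≤ m b → δ ≤ l b) (a : B) (ha : a ≠ ⊥) :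
    0 < capart l a := by
  have h0 : 0 < m a := hm.2.1 a ha
  obtain ⟨δ, hδ, hδ2⟩ := h (m a / 2) (by linarith)
  refine lt_of_lt_of_le hδ (le_capart a ?_)
  rintro r ⟨u, hu1, hu2, hu3⟩
  have h1 : Tendsto (fun n => m (a \ u n)) atTop (𝓝 0) := by
    refine hm.2.2.2.2 _ (fun i j hij => sdiff_le_sdiff_left (hu1 hij)) ?_
    rw [← le_bot_iff]
    have h1 : (⨅ n, a \ u n) ≤ (⨅ n, a \ u n) ⊓ ⨆ n, u n := by
      refine le_inf le_rfl ?_
      rw [hu2]
      exact (iInf_le _ 0).trans sdiff_le
    refine h1.trans ?_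
    rw [inf_iSup_eq]
    refine iSup_le fun n => ?_
    have h2 : (⨅ n, a \ u n) ⊓ u n ≤ (a \ u n) ⊓ u n := inf_le_inf_right _ (iInf_le _ n)
    exact h2.trans disjoint_sdiff_self_left.le_bot
  obtain ⟨n, hn⟩ := (h1.eventually (gt_mem_nhds (show (0 : ℝ) < m a / 2 by linarith))).exists
  refine le_trans (hδ2 (u n) ?_) (hu3 n)
  have h2 : m a ≤ m (u n) + m (a \ u n) := by
    refine le_trans (hm.2.2.1 _ _ ?_) (hm.2.2.2.1 _ _)
    rw [sup_sdiff_self_right]
    exact le_sup_right
  linarith

end CountablyAdditive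

/-- **Positive answer to Q1.** Let `B` be a ccc complete Boolean algebra such that every countably
generated complete subalgebra of `B` admits a measure, and suppose that `B` admits a continuous
outer measure. Then `B` admits a measure. -/
theorem result (B : Type u) [CompleteBooleanAlgebra B] (_hccc : CCC B)
    (hsub : ∀ L : BooleanSubalgebra B, IsCountablyGenerated L → ∃ μ : L → ℝ, IsMeasure μ)
    (hm : ∃ m : B → ℝ, IsContinuousOuterMeasure m) :
    ∃ μ : B → ℝ, IsMeasure μ := by
  obtain ⟨m, hm⟩ := hm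
  rcases subsingleton_or_nontrivial B with hB | hB
  · refine ⟨fun _ => 0, fun _ => le_rfl, fun a ha => absurd (Subsingleton.elim a ⊥) ha,
      fun a s _ _ => hasSum_zero⟩
  · obtain ⟨l, hl, h⟩ := exists_finAdd hm hsub
    exact ⟨capart l, capart_nonneg hl, fun a ha => capart_pos hl hm h a ha,
      fun a s ha hs => capart_hasSum hl a s ha hs⟩

end Pool.Agent.Results.MP_2d6919_lc.MeasureFromSubalgebras
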